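import Mathlib

/-!
# Rank-width and split-free cable terms: definitions, a counterexample

`RankWidthLE G k` and `SfwLE G k` say that the rank-width, respectively the width `sfw` of
split-free cable terms, of the graph `G` is at most `k`.
-/

set_option autoImplicit false

namespace Pool.Agent.R545.Sfw

/-! ### Cut-rank and rank-width -/

section RankWidth

variable {V : Type} [Fintype V] [DecidableEq V]

open Classical in
/-- The cut-rank of `X`: the rank over `GF(2)` of the `X × (V ∖ X)` submatrix of the adjacency
matrix of `G`. -/
noncomputable def cutRank (G : SimpleGraph V) (X : Finset V) : ℕ :=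
  ((G.adjMatrix (ZMod 2)).submatrix (fun x : X => (x : V))
    (fun y : (Xᶜ : Finset V) => (y : V))).rank

/-- A rank-decomposition of a graph with vertex set `V`: a finite tree of maximum degree at most
`3` with a bijection from `V` to its leaves (the nodes of degree `1`). -/
structure RankDecomposition (V : Type) where
  /-- the nodes of the tree -/
  N : Type
  /-- there are finitely many nodes -/
  finN : Finite N
  /-- the tree -/
  T : SimpleGraph N
  isTree : T.IsTree
  subcubic : ∀ x : N, (T.neighborSet x).ncard ≤ 3
  /-- the bijection to the leaves -/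
  leaf : V ≃ {x : N // (T.neighborSet x).ncard = 1}

open Classical in
/-- The vertices whose leaf lies on the side of `s` after the deletion of the edge `st` of the
tree. -/
noncomputable def RankDecomposition.side (D : RankDecomposition V) (s t : D.N) : Finset V :=
  Finset.univ.filter fun v => (D.T.deleteEdges {s(s, t)}).Reachable s (D.leaf v).1

/-- The rank-width of `G` is at most `k`. -/
def RankWidthLE (G : SimpleGraph V) (k : ℕ) : Prop :=
  Fintype.card V ≤ 1 ∨
    ∃ D : RankDecomposition V, ∀ s t : D.N, D.T.Adj s t → cutRank G (D.side s t) ≤ k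

end RankWidth

/-! ### Split-free cable terms -/

/-- Split-free cable terms (creating vertices of `V`) of type `p → q`. Reordering the list of
cables is free: it is allowed at every composition. -/
inductive Term (V : Type) : ℕ → ℕ → Type
  /-- the identity -/
  | e : Term V 1 1
  /-- create the nonempty vertex set `S` as one cable -/
  | nu (S : Finset V) (hS : S.Nonempty) : Term V 0 1
  /-- discard a cable -/
  | kappa : Term V 1 0
  /-- replace two cables by their union -/
  | phi : Term V 2 1
  /-- add all edges between the two cables -/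
  | B : Term V 2 2
  /-- add all edges inside the cable -/
  | K : Term V 1 1
  /-- first `s`, then (after a reordering of the cables) `t` -/
  | comp {p q r : ℕ} (s : Term V p q) (σ : Equiv.Perm (Fin q)) (t : Term V q r) : Term V p r
  /-- `s` and `t` side by side -/
  | box {p q p' q' : ℕ} (s : Term V p q) (t : Term V p' q') : Term V (p + p') (q + q')

namespace Term

variable {V : Type} [DecidableEq V]

/-- The list of the cables returned by a term which gets the list `c` of cables. -/
def run : {p q : ℕ} → Term V p q → (Fin p → Finset V) → (Fin q → Finset V)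
  | _, _, e, c => c
  | _, _, nu S _, _ => fun _ => S
  | _, _, kappa, _ => Fin.elim0
  | _, _, phi, c => fun _ => c 0 ∪ c 1
  | _, _, B, c => c
  | _, _, K, c => c
  | _, _, comp s σ t, c => t.run (fun i => s.run c (σ i))
  | _, _, box s t, c =>
      Fin.append (s.run fun i => c (Fin.castAdd _ i)) (t.run fun i => c (Fin.natAdd _ i))

/-- `t.adds c x y`: the term `t` adds the edge `xy` when it gets the list `c` of cables. -/
def adds : {p q : ℕ} → Term V p q → (Fin p → Finset V) → V → V → Prop
  | _, _, e, _, _, _ => False
  | _, _, nu _ _, _, _, _ => False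
  | _, _, kappa, _, _, _ => False
  | _, _, phi, _, _, _ => False
  | _, _, B, c, x, y => (x ∈ c 0 ∧ y ∈ c 1) ∨ (x ∈ c 1 ∧ y ∈ c 0)
  | _, _, K, c, x, y => x ≠ y ∧ x ∈ c 0 ∧ y ∈ c 0
  | _, _, comp s σ t, c, x, y => s.adds c x y ∨ t.adds (fun i => s.run c (σ i)) x y
  | _, _, box s t, c, x, y =>
      s.adds (fun i => c (Fin.castAdd _ i)) x y ∨ t.adds (fun i => c (Fin.natAdd _ i)) x y

/-- The vertices created by a term (with multiplicities). -/
def created : {p q : ℕ} → Term V p q → Multiset V
  | _, _, nu S _ => S.val
  | _, _, comp s _ t => s.created + t.created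
  | _, _, box s t => s.created + t.created
  | _, _, _ => 0

/-- The maximum of `p + q` over the subterm occurrences `p → q` of the term. -/
def width : {p q : ℕ} → Term V p q → ℕ
  | p, r, comp s _ t => max (p + r) (max s.width t.width)
  | _, _, box (p := p) (q := q) (p' := p') (q' := q') s t =>
      max (p + p' + (q + q')) (max s.width t.width)
  | p, q, _ => p + q

/-- The closed term `t` is legal for `G`: every vertex is created exactly once and the edges added
by `t` are exactly the edges of `G`. -/
def Legal (G : SimpleGraph V) (t : Term V 0 0) : Prop :=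
  (∀ v : V, t.created.count v = 1) ∧ ∀ x y : V, t.adds Fin.elim0 x y ↔ G.Adj x y

/-- decidability of `adds` -/
def decAdds : {p q : ℕ} → (t : Term V p q) → (c : Fin p → Finset V) → (x y : V) →
    Decidable (t.adds c x y)
  | _, _, e, _, _, _ => inferInstanceAs (Decidable False)
  | _, _, nu _ _, _, _, _ => inferInstanceAs (Decidable False)
  | _, _, kappa, _, _, _ => inferInstanceAs (Decidable False)
  | _, _, phi, _, _, _ => inferInstanceAs (Decidable False)
  | _, _, B, c, x, y => inferInstanceAs (Decidable ((x ∈ c 0 ∧ y ∈ c 1) ∨ (x ∈ c 1 ∧ y ∈ c 0)))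
  | _, _, K, c, x, y => inferInstanceAs (Decidable (x ≠ y ∧ x ∈ c 0 ∧ y ∈ c 0))
  | _, _, comp s σ t, c, x, y =>
      have := s.decAdds c x y
      have := t.decAdds (fun i => s.run c (σ i)) x y
      inferInstanceAs (Decidable (s.adds c x y ∨ t.adds (fun i => s.run c (σ i)) x y))
  | _, _, box s t, c, x, y =>
      have := s.decAdds (fun i => c (Fin.castAdd _ i)) x y
      have := t.decAdds (fun i => c (Fin.natAdd _ i)) x y
      inferInstanceAs (Decidable (s.adds (fun i => c (Fin.castAdd _ i)) x y ∨
        t.adds (fun i => c (Fin.natAdd _ i)) x y))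

instance {p q : ℕ} (t : Term V p q) (c : Fin p → Finset V) (x y : V) :
    Decidable (t.adds c x y) := t.decAdds c x y

end Term

/-- `sfw(G) ≤ k`: the graph has no vertex or it has a legal closed term all of whose subterm
occurrences `p → q` satisfy `p + q ≤ k`. -/
def SfwLE {V : Type} [Fintype V] [DecidableEq V] (G : SimpleGraph V) (k : ℕ) : Prop :=
  Fintype.card V = 0 ∨ ∃ t : Term V 0 0, t.Legal G ∧ t.width ≤ k

/-! ### The graph -/

/-- The edges of the counterexample: the ladder with the rails `0 1 2 3 4` and `5 6 7 8 9`, and
the vertex `10` joined to `0` and `4`. -/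
def edges : List (Fin 11 × Fin 11) :=
  [(0, 1), (1, 2), (2, 3), (3, 4), (5, 6), (6, 7), (7, 8), (8, 9),
    (0, 5), (1, 6), (2, 7), (3, 8), (4, 9), (10, 0), (10, 4)]

/-- The ladder with five rungs and one further vertex joined to the two ends of a rail. -/
def ring : SimpleGraph (Fin 11) where
  Adj x y := (x, y) ∈ edges ∨ (y, x) ∈ edges
  symm := ⟨fun _ _ h => Or.symm h⟩
  loopless := ⟨by decide⟩

instance : DecidableRel ring.Adj := fun x y =>
  inferInstanceAs (Decidable ((x, y) ∈ edges ∨ (y, x) ∈ edges))

open Term in
/-- replace a cable by a new vertex `v` adjacent to its vertices -/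
def ext (v : Fin 11) : Term (Fin 11) 1 1 :=
  .comp (.comp (.box .e (.nu {v} ⟨v, Finset.mem_singleton_self v⟩)) 1 .B) 1 (.box .kappa .e)

/-- one step along the ladder -/
def step (v w : Fin 11) : Term (Fin 11) 2 2 :=
  .comp (.box (ext v) (ext w)) 1 .B

/-- the ladder, from the first to the last vertex of the first rail -/
def ladder : Term (Fin 11) 1 1 :=
  .comp (.comp (.comp (.comp (.comp
    (.comp (.box .e (.nu {5} ⟨5, Finset.mem_singleton_self 5⟩)) 1 .B) 1
      (step 1 6)) 1 (step 2 7)) 1 (step 3 8)) 1 (step 4 9)) 1 (.box .e .kappa)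

/-- the closed term -/
def closed : Term (Fin 11) 0 0 :=
  .comp (.comp (.comp
    (.comp (.box (.nu {10} ⟨10, Finset.mem_singleton_self 10⟩)
      (.nu {0} ⟨0, Finset.mem_singleton_self 0⟩)) 1 .B) 1
    (.box .e ladder)) 1 .B) 1 (.box .kappa .kappa)

theorem closed_width : closed.width = 4 := by decide

theorem closed_legal : closed.Legal ring := by
  refine ⟨?_, ?_⟩
  · decide
  · decide +kernel

theorem ring_sfw : SfwLE ring 4 := Or.inr ⟨closed, closed_legal, closed_width.le⟩

end Pool.Agent.R545.Sfw
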