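import Pool.Agent.R545.Sfw.Basic

/-!
# The counterexample has rank-width at least `3`
-/

set_option autoImplicit false

namespace Pool.Agent.R545.Sfw

/-- the neighbourhoods, as bit masks -/
def nb (i : ℕ) : ℕ := [1058, 69, 138, 276, 1544, 65, 162, 324, 648, 272, 17].getD i 0

theorem nb_spec : ∀ i y : Fin 11, (nb i).testBit y = decide (ring.Adj i y) := by
  decide +kernel

/-- the row of `i` of the matrix of the cut, as a bit mask -/
def rowMask (m i : ℕ) : ℕ := nb i &&& (2047 ^^^ m)

/-- three vectors over `GF(2)` are independent -/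
def indep (a b c : ℕ) : Bool :=
  a != 0 && b != 0 && c != 0 && a != b && a != c && b != c && (a ^^^ b) != c

/-- three independent rows -/
def three (m : ℕ) : Bool :=
  (List.range 11).any fun i => m.testBit i && (List.range i).any fun j => m.testBit j &&
    (List.range j).any fun k => m.testBit k && indep (rowMask m i) (rowMask m j) (rowMask m k)

/-- number of elements -/
def pc (m : ℕ) : ℕ := (List.range 11).countP fun i => m.testBit i

/-- the check -/
def chk (m : ℕ) : Bool := pc m < 4 || 7 < pc m || three m

theorem chk_all : ((List.range 2048).all chk) = true := by decide +kernel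

theorem nb_lt : ∀ i : Fin 11, nb i < 2 ^ 11 := by decide +kernel

/-- the mask of a set -/
def mask (X : Finset (Fin 11)) : ℕ := Nat.ofBits fun i : Fin 11 => decide (i ∈ X)

theorem mask_lt (X : Finset (Fin 11)) : mask X < 2048 := Nat.ofBits_lt_two_pow _

theorem testBit_mask (X : Finset (Fin 11)) (i : Fin 11) :
    (mask X).testBit i = decide (i ∈ X) := by
  unfold mask
  rw [Nat.testBit_ofBits_lt _ _ i.isLt]

theorem pc_mask (X : Finset (Fin 11)) : pc (mask X) = X.card := by
  have h1 : pc (mask X) = ∑ i : Fin 11, if i ∈ X then 1 else 0 := by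
    unfold pc
    have e : List.range 11 = [0, 1, 2, 3, 4, 5, 6, 7, 8, 9, 10] := by decide
    rw [e]
    have t : ∀ i : Fin 11, (mask X).testBit i = decide (i ∈ X) := testBit_mask X
    have t0 : (mask X).testBit 0 = decide (0 ∈ X) := t 0
    have t1 : (mask X).testBit 1 = decide (1 ∈ X) := t 1
    have t2 : (mask X).testBit 2 = decide (2 ∈ X) := t 2
    have t3 : (mask X).testBit 3 = decide (3 ∈ X) := t 3
    have t4 : (mask X).testBit 4 = decide (4 ∈ X) := t 4
    have t5 : (mask X).testBit 5 = decide (5 ∈ X) := t 5
    have t6 : (mask X).testBit 6 = decide (6 ∈ X) := t 6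
    have t7 : (mask X).testBit 7 = decide (7 ∈ X) := t 7
    have t8 : (mask X).testBit 8 = decide (8 ∈ X) := t 8
    have t9 : (mask X).testBit 9 = decide (9 ∈ X) := t 9
    have t10 : (mask X).testBit 10 = decide (10 ∈ X) := t 10
    have hs : ∀ f : Fin 11 → ℕ, ∑ i, f i = f 0 + f 1 + f 2 + f 3 + f 4 + f 5 + f 6 + f 7 + f 8 +
        f 9 + f 10 := by
      intro f
      simp only [Fin.sum_univ_succ, Fin.sum_univ_zero]
      simp only [← add_assoc, add_zero]
      rfl
    rw [hs]
    simp only [List.countP_cons, List.countP_nil, t0, t1, t2, t3, t4, t5, t6, t7, t8, t9, t10,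
      decide_eq_true_eq]
    omega
  rw [h1, Finset.sum_boole]
  simp

theorem testBit_rw (X : Finset (Fin 11)) (i : Fin 11) (y : Fin 11) :
    (rowMask (mask X) i).testBit y = (decide (ring.Adj i y) && decide (y ∉ X)) := by
  unfold rowMask
  rw [Nat.testBit_and, nb_spec, Nat.testBit_xor, testBit_mask]
  have : (2047 : ℕ).testBit y = true := by
    revert y
    decide
  rw [this]
  by_cases h : y ∈ X <;> simp [h]

theorem testBit_rw_ge (X : Finset (Fin 11)) (i : Fin 11) (y : ℕ) (hy : 11 ≤ y) :
    (rowMask (mask X) i).testBit y = false := by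
  unfold rowMask
  rw [Nat.testBit_and, Nat.testBit_lt_two_pow
    ((nb_lt i).trans_le (Nat.pow_le_pow_right (by norm_num) hy)), Bool.false_and]

/-- the entry of the adjacency matrix -/
def ent (i y : Fin 11) : ZMod 2 := if ring.Adj i y then 1 else 0

theorem comb_zero (X : Finset (Fin 11)) (i j k : Fin 11) (a b c : ZMod 2)
    (h : ∀ y, y ∉ X → a * ent i y + b * ent j y + c * ent k y = 0) :
    ((if a = 1 then rowMask (mask X) i else 0) ^^^ (if b = 1 then rowMask (mask X) j else 0)) ^^^
      (if c = 1 then rowMask (mask X) k else 0) = 0 := by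
  apply Nat.eq_of_testBit_eq
  intro y
  rw [Nat.testBit_xor, Nat.testBit_xor, Nat.zero_testBit]
  have hs : ∀ (u : ZMod 2) (s : Fin 11), (if u = 1 then rowMask (mask X) s else 0).testBit y =
      if h : y < 11 then (decide (u = 1) && (decide (ring.Adj s ⟨y, h⟩) &&
        decide ((⟨y, h⟩ : Fin 11) ∉ X))) else false := by
    intro u s
    split_ifs with h1 h2 h2
    · have := testBit_rw X s ⟨y, h2⟩
      simp only at this
      rw [this, h1]
      simp
    · exact testBit_rw_ge X s y (by omega)
    · simp [h1]
    · simp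
  rw [hs, hs, hs]
  by_cases hy : y < 11
  · simp only [hy, dif_pos]
    by_cases hX : (⟨y, hy⟩ : Fin 11) ∈ X
    · simp [hX]
    · have h2 := h ⟨y, hy⟩ hX
      unfold ent at h2
      simp only [hX, not_false_eq_true, decide_true, Bool.and_true]
      have hz : ∀ z : ZMod 2, z = 0 ∨ z = 1 := by decide
      rcases hz a with rfl | rfl <;> rcases hz b with rfl | rfl <;> rcases hz c with rfl | rfl <;>
        by_cases h3 : ring.Adj i ⟨y, hy⟩ <;> by_cases h4 : ring.Adj j ⟨y, hy⟩ <;>
        by_cases h5 : ring.Adj k ⟨y, hy⟩ <;> simp_all <;> revert h2 <;> decide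
  · simp [hy]

theorem cutRank_ge (X : Finset (Fin 11)) (h4 : 4 ≤ X.card) (h7 : X.card ≤ 7) :
    3 ≤ cutRank ring X := by
  have h := List.all_eq_true.mp chk_all (mask X) (List.mem_range.mpr (mask_lt X))
  unfold chk at h
  rw [pc_mask] at h
  have h1 : three (mask X) = true := by
    simp only [Bool.or_eq_true, decide_eq_true_eq] at h
    rcases h with (h | h) | h
    · omega
    · omega
    · exact h
  unfold three at h1
  simp only [List.any_eq_true, List.mem_range, Bool.and_eq_true] at h1
  obtain ⟨i, hi, hiX, j, hj, hjX, k, hk, hkX, hind⟩ := h1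
  obtain ⟨i, rfl⟩ : ∃ i' : Fin 11, (i' : ℕ) = i := ⟨⟨i, hi⟩, rfl⟩
  obtain ⟨j, rfl⟩ : ∃ j' : Fin 11, (j' : ℕ) = j := ⟨⟨j, by omega⟩, rfl⟩
  obtain ⟨k, rfl⟩ : ∃ k' : Fin 11, (k' : ℕ) = k := ⟨⟨k, by omega⟩, rfl⟩
  rw [testBit_mask, decide_eq_true_eq] at hiX hjX hkX
  unfold indep at hind
  simp only [Bool.and_eq_true, bne_iff_ne, ne_eq] at hind
  obtain ⟨⟨⟨⟨⟨⟨h01, h02⟩, h03⟩, h04⟩, h05⟩, h06⟩, h07⟩ := hind
  set M := ((ring.adjMatrix (ZMod 2)).submatrix (fun x : X => (x : Fin 11))
    (fun y : (Xᶜ : Finset (Fin 11)) => (y : Fin 11))) with hM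
  have hMr : cutRank ring X = M.rank := by
    unfold cutRank
    rw [hM]
    have hinst : (fun a b => Classical.propDecidable (ring.Adj a b)) =
      (fun a b => instDecidableRelFinOfNatNatAdjRing a b) := Subsingleton.elim _ _
    rw [hinst]
  rw [hMr]
  let r : Fin 3 → X := ![⟨i, hiX⟩, ⟨j, hjX⟩, ⟨k, hkX⟩]
  have h2 : (M.submatrix r id).rank ≤ M.rank := Matrix.rank_submatrix_le _ _ _
  have h3 : LinearIndependent (ZMod 2) (M.submatrix r id).row := by
    rw [Fintype.linearIndependent_iff]
    intro g hg
    have h5 : ∀ y, y ∉ X → g 0 * ent i y + g 1 * ent j y + g 2 * ent k y = 0 := by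
      intro y hy
      have := congrFun hg ⟨y, Finset.mem_compl.mpr hy⟩
      rw [Fin.sum_univ_three] at this
      simp only [Pi.add_apply, Pi.smul_apply, smul_eq_mul, Pi.zero_apply, Matrix.row_apply,
        Matrix.submatrix_apply, id_eq, hM, SimpleGraph.adjMatrix_apply] at this
      exact this
    have h6 := comb_zero X i j k _ _ _ h5
    have hz : ∀ z : ZMod 2, z = 0 ∨ z = 1 := by decide
    have h10 : ¬ (0 : ZMod 2) = 1 := by decide
    have hx : ∀ a b : ℕ, a ^^^ b = 0 → a = b := by
      intro a b h
      have := congrArg (fun t => t ^^^ b) h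
      simpa [Nat.xor_assoc] using this
    rcases hz (g 0) with h7 | h7 <;> rcases hz (g 1) with h8 | h8 <;>
      rcases hz (g 2) with h9 | h9 <;> rw [h7, h8, h9] at h6 <;>
      simp only [h10, if_true, if_false, Nat.zero_xor, Nat.xor_zero] at h6
    · intro s
      fin_cases s
      · exact h7
      · exact h8
      · exact h9
    · exact absurd h6 h03
    · exact absurd h6 h02
    · exact absurd (hx _ _ h6) h06
    · exact absurd h6 h01
    · exact absurd (hx _ _ h6) h05
    · exact absurd (hx _ _ h6) h04
    · exact absurd (hx _ _ h6) h07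
  rw [h3.rank_matrix, Fintype.card_fin] at h2
  exact h2

/-! ### Trees -/

section Tree

variable {N : Type} {T : SimpleGraph N}

/-- the nodes on the side of `s` of the edge `st` -/
def R (T : SimpleGraph N) (s t : N) : Set N := {x | (T.deleteEdges {s(s, t)}).Reachable s x}

theorem R_self (s t : N) : s ∈ R T s t := SimpleGraph.Reachable.refl s

theorem R_step {s t x y : N} (hx : x ∈ R T s t) (h : T.Adj x y) (hne : s(x, y) ≠ s(s, t)) :
    y ∈ R T s t := by
  refine SimpleGraph.Reachable.trans hx (SimpleGraph.Adj.reachable ?_)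
  rw [SimpleGraph.deleteEdges_adj]
  exact ⟨h, fun h1 => hne h1⟩

theorem R_notMem (hT : T.IsTree) {s t : N} (h : T.Adj s t) : t ∉ R T s t := by
  have := SimpleGraph.isAcyclic_iff_forall_adj_isBridge.mp hT.isAcyclic h
  rw [SimpleGraph.isBridge_iff] at this
  exact this

/-- induction along the tree -/
theorem tree_induct (hT : T.IsTree) (P : N → Prop) (a : N) (h0 : P a)
    (hs : ∀ x y, P x → T.Adj x y → P y) (x : N) : P x := by
  obtain ⟨p⟩ := hT.connected a x
  induction p with
  | nil => exact h0
  | cons h p ih => exact ih (hs _ _ h0 h)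

theorem R_union (hT : T.IsTree) (s t : N) (x : N) : x ∈ R T s t ∨ x ∈ R T t s := by
  refine tree_induct hT (fun x => x ∈ R T s t ∨ x ∈ R T t s) s (Or.inl (R_self s t)) ?_ x
  intro x y hx h
  by_cases h1 : s(x, y) = s(s, t)
  · rw [Sym2.eq_iff] at h1
    rcases h1 with ⟨-, rfl⟩ | ⟨-, rfl⟩
    · exact Or.inr (R_self _ _)
    · exact Or.inl (R_self _ _)
  · rcases hx with hx | hx
    · exact Or.inl (R_step hx h h1)
    · exact Or.inr (R_step hx h (by rwa [Sym2.eq_swap (a := t)]))

theorem R_disj (hT : T.IsTree) {s t : N} (h : T.Adj s t) (x : N) (h1 : x ∈ R T s t)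
    (h2 : x ∈ R T t s) : False := by
  apply R_notMem hT h
  have h3 : (T.deleteEdges {s(s, t)}).Reachable t x := by
    have h2' : (T.deleteEdges {s(t, s)}).Reachable t x := h2
    rwa [Sym2.eq_swap (a := t)] at h2'
  exact SimpleGraph.Reachable.trans h1 h3.symm

theorem R_cover (hT : T.IsTree) (t : N) (x : N) : x = t ∨ ∃ u, T.Adj t u ∧ x ∈ R T u t := by
  refine tree_induct hT (fun x => x = t ∨ ∃ u, T.Adj t u ∧ x ∈ R T u t) t (Or.inl rfl) ?_ x
  intro x y hx h
  rcases hx with rfl | ⟨u, hu, hx⟩
  · exact Or.inr ⟨y, h, R_self _ _⟩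
  · by_cases h1 : s(x, y) = s(u, t)
    · rw [Sym2.eq_iff] at h1
      rcases h1 with ⟨-, rfl⟩ | ⟨-, rfl⟩
      · exact Or.inl rfl
      · exact Or.inr ⟨_, hu, R_self _ _⟩
    · exact Or.inr ⟨u, hu, R_step hx h h1⟩

theorem R_subset (hT : T.IsTree) {s t u : N} (hst : T.Adj s t) (hu : T.Adj t u) (hne : u ≠ s) :
    R T u t ⊆ R T t s := by
  intro x hx
  by_contra hcon
  -- walk from `u` to `x` avoiding the edge `ut`
  have key : ∀ y, (T.deleteEdges {s(u, t)}).Reachable u y → y ∈ R T t s := by
    intro y hy
    obtain ⟨p⟩ := hy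
    have gen : ∀ (a b : N) (q : (T.deleteEdges {s(u, t)}).Walk a b), a ∈ R T u t →
        a ∈ R T t s → b ∈ R T t s := by
      intro a b q
      induction q with
      | nil => exact fun _ h => h
      | @cons a c b h q ih =>
        intro h1 h2
        rw [SimpleGraph.deleteEdges_adj] at h
        have hne' : s(a, c) ≠ s(u, t) := fun h3 => h.2 h3
        have h3 : c ∈ R T u t := R_step h1 h.1 hne'
        refine ih h3 (R_step h2 h.1 ?_)
        intro h4
        rw [Sym2.eq_iff] at h4
        rcases h4 with ⟨rfl, -⟩ | ⟨-, rfl⟩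
        · exact R_notMem hT hu.symm h1
        · exact R_notMem hT hu.symm h3
    refine gen u y p (R_self _ _) (R_step (R_self t s) hu ?_)
    intro h4
    rw [Sym2.eq_iff] at h4
    rcases h4 with ⟨-, h5⟩ | ⟨h5, h6⟩
    · exact hne h5
    · exact hst.ne h5.symm
  exact hcon (key x hx)

end Tree

theorem mem_side (D : RankDecomposition (Fin 11)) (s t : D.N) (v : Fin 11) :
    v ∈ D.side s t ↔ (D.leaf v).1 ∈ R D.T s t := by
  classical
  unfold RankDecomposition.side
  constructor
  · intro h
    exact (Finset.mem_filter.mp h).2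
  · intro h
    exact Finset.mem_filter.mpr ⟨Finset.mem_univ _, h⟩

theorem not_rankWidthLE : ¬ RankWidthLE ring 2 := by
  classical
  rintro (h | ⟨D, hD⟩)
  · simp at h
  · have := D.finN
    have := Fintype.ofFinite D.N
    -- every edge has a small side
    have hcard : ∀ s t, D.T.Adj s t → (D.side s t).card + (D.side t s).card = 11 := by
      intro s t h
      have h1 : D.side t s = (D.side s t)ᶜ := by
        ext v
        unfold RankDecomposition.side
        simp only [Finset.mem_filter, Finset.mem_univ, true_and, Finset.mem_compl]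
        constructor
        · intro h1 h2
          exact R_disj D.isTree h _ h2 h1
        · intro h1
          exact (R_union D.isTree s t _).resolve_left h1
      rw [h1, Finset.card_add_card_compl, Fintype.card_fin]
    have hsmall : ∀ s t, D.T.Adj s t → (D.side s t).card ≤ 3 ∨ 8 ≤ (D.side s t).card := by
      intro s t h
      by_contra hcon
      push Not at hcon
      have h1 := cutRank_ge (D.side s t) (by omega) (by omega)
      have h2 := hD s t h
      omega
    have hT := D.isTree
    -- no minimal big side
    have hmain : ∀ n : ℕ, ∀ s t, D.T.Adj s t → (R D.T t s).ncard ≤ n →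
        (D.side t s).card ≤ 3 := by
      intro n
      induction n with
      | zero =>
        intro s t h h1
        have h2 : (R D.T t s).ncard = 0 := by omega
        rw [Set.ncard_eq_zero (Set.toFinite _)] at h2
        exact absurd (R_self t s) (by rw [h2]; simp)
      | succ n ih =>
        intro s t h h1
        by_contra hcon
        have hbig : 8 ≤ (D.side t s).card := by
          rcases hsmall t s h.symm with h2 | h2 <;> omega
        have h2 : (D.side s t).card ≤ 3 := by
          have := hcard s t h
          omega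
        have h3 : ∀ u, D.T.Adj t u → (D.side u t).card ≤ 3 := by
          intro u hu
          by_cases hus : u = s
          · rw [hus]
            exact h2
          · apply ih t u hu
            have h4 : R D.T u t ⊂ R D.T t s := by
              rw [Set.ssubset_iff_of_subset (R_subset hT h hu hus)]
              exact ⟨t, R_self _ _, R_notMem hT hu.symm⟩
            have := Set.ncard_lt_ncard h4 (Set.toFinite _)
            omega
        -- the cover
        have h4 : (Finset.univ : Finset (Fin 11)) ⊆
            ((D.T.neighborSet t).toFinset.biUnion fun u => D.side u t) ∪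
              Finset.univ.filter (fun v => (D.leaf v).1 = t) := by
          intro v _
          rw [Finset.mem_union, Finset.mem_biUnion, Finset.mem_filter]
          rcases R_cover hT t (D.leaf v).1 with h5 | ⟨u, hu, h5⟩
          · exact Or.inr ⟨Finset.mem_univ _, h5⟩
          · refine Or.inl ⟨u, ?_, ?_⟩
            · rw [Set.mem_toFinset]
              exact hu
            · rw [mem_side]
              exact h5
        have h5 := (Finset.card_le_card h4).trans (Finset.card_union_le _ _)
        have h6 : (Finset.univ.filter (fun v => (D.leaf v).1 = t)).card ≤ 1 := by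
          rw [Finset.card_le_one]
          intro a ha b hb
          rw [Finset.mem_filter] at ha hb
          apply D.leaf.injective
          apply Subtype.ext
          rw [ha.2, hb.2]
        have h7 : ((D.T.neighborSet t).toFinset.biUnion fun u => D.side u t).card ≤
            (D.T.neighborSet t).toFinset.card * 3 := by
          apply Finset.card_biUnion_le_card_mul
          intro u hu
          rw [Set.mem_toFinset] at hu
          exact h3 u hu
        have h8 : (D.T.neighborSet t).toFinset.card ≤ 3 := by
          rw [← Set.ncard_eq_toFinset_card']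
          exact D.subcubic t
        rw [Finset.card_univ, Fintype.card_fin] at h5
        omega
    -- an edge
    have h1 := (D.leaf 0).2
    rw [Set.ncard_eq_one] at h1
    obtain ⟨u, hu⟩ := h1
    have h2 : D.T.Adj (D.leaf 0).1 u := by
      have : u ∈ D.T.neighborSet (D.leaf 0).1 := by rw [hu]; rfl
      exact this
    have h3 := hmain _ _ _ h2 le_rfl
    have h4 := hmain _ _ _ h2.symm le_rfl
    have h5 := hcard _ _ h2
    omega

end Pool.Agent.R545.Sfw
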